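import Pool.Agent.H65.AD.TargetsF
import Pool.Agent.H31.CN.RAT2
import Pool.Agent.H95.AD.TargetsU

/-!
# Almost all discriminants: small rows (UF8, TPS, CHB, MBD, TVR, RCM, AAR)
-/

set_option autoImplicit false

open MeasureTheory Set Filter NumberField
open scoped Real nonZeroDivisors

namespace Pool.Agent.H65.AD

open Pool.Agent.H31.CN Pool.Agent.H95.AD Pool.Agent.H50.CN

theorem pf_UF8 (hUFN : Pool.Agent.H95.AD.T_UFN) : T_UFN8 := by
  intro P N θ η _ hN _ _ hθ hθ2 hη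
  obtain ⟨δ, X₀, hδ, h⟩ := hUFN P N θ η hN hθ hθ2 hη
  exact ⟨δ, X₀, hδ, fun X hX => h X hX⟩

theorem pf_TPS (hUNF : T_UNF) : T_TPS := by
  intro P M N Δ hΔ
  have h := hUNF Δ hΔ (SD M N) (CD P M N Δ) (fun m hm => (Finset.mem_filter.1 hm).2.1)
    Empty (fun i => i.elim) (fun i => i.elim) (fun i => i.elim)
  rw [Finset.univ_eq_empty, Finset.sum_empty] at h
  exact h

theorem pf_CHB : T_CHB := by
  intro s f c ε B hε h
  rw [le_div_iff₀ (by positivity)]
  refine le_trans ?_ h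
  calc ((s.filter (fun D => ε ≤ |f D - c|)).card : ℝ) * ε ^ 2
      = ∑ D ∈ s.filter (fun D => ε ≤ |f D - c|), ε ^ 2 := by
        rw [Finset.sum_const, nsmul_eq_mul]
    _ ≤ ∑ D ∈ s.filter (fun D => ε ≤ |f D - c|), (f D - c) ^ 2 := by
        refine Finset.sum_le_sum fun D hD => ?_
        rw [← sq_abs (f D - c)]
        exact pow_le_pow_left₀ hε.le (Finset.mem_filter.1 hD).2 2
    _ ≤ ∑ D ∈ s, (f D - c) ^ 2 :=
        Finset.sum_le_sum_of_subset_of_nonneg (Finset.filter_subset _ _)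
          fun D _ _ => sq_nonneg _

theorem pf_MBD : T_MBD := by
  intro V S g i j hV hS hg hij
  refine hg _ ((1 + S) ^ 3) (by positivity) fun v h1 h2 => ?_
  rw [abs_mul, abs_pow, abs_pow]
  calc |v.1| ^ i * |v.2| ^ j ≤ (1 + S) ^ i * (1 + S) ^ j := by
        refine mul_le_mul (pow_le_pow_left₀ (abs_nonneg _) (by linarith) _)
          (pow_le_pow_left₀ (abs_nonneg _) (by linarith) _) (by positivity) (by positivity)
    _ = (1 + S) ^ (i + j) := (pow_add _ _ _).symm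
    _ ≤ (1 + S) ^ 3 := pow_le_pow_right₀ (by linarith) hij

theorem two_le_primorial {R : ℕ} (hR : 2 ≤ R) : 2 ∣ primorial R := by
  unfold primorial
  exact Finset.dvd_prod_of_mem (fun p => p)
    (Finset.mem_filter.2 ⟨Finset.mem_range.2 (by omega), Nat.prime_two⟩)

theorem squarefree_primorial (R : ℕ) : Squarefree (primorial R) := by
  unfold primorial
  refine Finset.squarefree_prod_of_pairwise_isCoprime ?_ ?_
  · intro p hp q hq hpq
    show IsRelPrime p q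
    rw [← Nat.coprime_iff_isRelPrime]
    exact (Nat.coprime_primes (Finset.mem_filter.1 hp).2 (Finset.mem_filter.1 hq).2).2 hpq
  · intro p hp
    exact (Finset.mem_filter.1 hp).2.squarefree

theorem pf_TVR (hUFN : T_UFN8) (hMNM : T_MNM) : T_TVR := by
  intro P θ hP hθ hθ2 ε hε
  obtain ⟨R₀, hR₀⟩ := hMNM P θ hP hθ hθ2 (ε / 16) (by positivity)
  refine ⟨max R₀ 2, fun R hR η hη hη2 => ?_⟩
  obtain ⟨X₁, hX₁⟩ := hR₀ R ((le_max_left _ _).trans hR) η hη hη2
  have h2R : 2 ≤ R := (le_max_right _ _).trans hR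
  obtain ⟨δ, X₂, hδ, hX₂⟩ := hUFN P (primorial R) θ η hP (primorial_pos R)
    (two_le_primorial h2R) (squarefree_primorial R) hθ hθ2 hη
  -- `X ^ (-δ) ≤ ε / 16` for large `X`
  have hlim : Tendsto (fun X : ℝ => X ^ (-δ)) atTop (nhds 0) := tendsto_rpow_neg_atTop hδ
  obtain ⟨X₃, hX₃⟩ := Filter.eventually_atTop.1
    (hlim.eventually (gt_mem_nhds (show (0 : ℝ) < ε / 16 by positivity)))
  refine ⟨max (max X₁ X₂) (max X₃ 1), fun X hX => ?_⟩
  have hX1 : X₁ ≤ X := ((le_max_left _ _).trans (le_max_left _ _)).trans hX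
  have hX2 : X₂ ≤ X := ((le_max_right _ _).trans (le_max_left _ _)).trans hX
  have hX3 : X₃ ≤ X := ((le_max_left _ _).trans (le_max_right _ _)).trans hX
  have hX4 : 1 ≤ X := ((le_max_right _ _).trans (le_max_right _ _)).trans hX
  have hX0 : 0 < X := by linarith
  have h1 := hX₁ X hX1
  have h2 := hX₂ X hX2
  have h3 : X ^ (1 - δ) ≤ ε / 16 * X := by
    rw [sub_eq_add_neg, Real.rpow_add hX0, Real.rpow_one, mul_comm]
    exact mul_le_mul_of_nonneg_right (hX₃ X hX3).le hX0.le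
  set N := primorial R with hN
  have key : ∀ D, (TD P (X ^ θ) N D - Gam P (X ^ θ) N X) ^ 2 ≤
      8 * (MD P (X ^ θ) N D - rho N * Ph (Real.log (Real.sqrt X)) (GS P (X ^ θ) N 1 1)) ^ 2 +
      8 * (∑ m₁ ∈ SD (X ^ θ) N, ∑ m₂ ∈ SD (X ^ θ) N,
      CD P (X ^ θ) N D m₁ * CD P (X ^ θ) N D m₂ * (Uf m₁ m₂ D - Uc m₁ m₂ D)) ^ 2 := by
    intro D
    have e : TD P (X ^ θ) N D - Gam P (X ^ θ) N X =
        2 * (MD P (X ^ θ) N D - rho N * Ph (Real.log (Real.sqrt X)) (GS P (X ^ θ) N 1 1)) +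
        2 * (∑ m₁ ∈ SD (X ^ θ) N, ∑ m₂ ∈ SD (X ^ θ) N,
          CD P (X ^ θ) N D m₁ * CD P (X ^ θ) N D m₂ * (Uf m₁ m₂ D - Uc m₁ m₂ D)) := by
      unfold TD MD Gam
      simp only [mul_sub, Finset.sum_sub_distrib]
      ring
    rw [e]
    nlinarith [sq_nonneg ((MD P (X ^ θ) N D -
        rho N * Ph (Real.log (Real.sqrt X)) (GS P (X ^ θ) N 1 1)) -
      (∑ m₁ ∈ SD (X ^ θ) N, ∑ m₂ ∈ SD (X ^ θ) N,
          CD P (X ^ θ) N D m₁ * CD P (X ^ θ) N D m₂ * (Uf m₁ m₂ D - Uc m₁ m₂ D)))]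
  calc ∑ D ∈ faE η X, (TD P (X ^ θ) N D - Gam P (X ^ θ) N X) ^ 2
      ≤ ∑ D ∈ faE η X, (8 * (MD P (X ^ θ) N D -
          rho N * Ph (Real.log (Real.sqrt X)) (GS P (X ^ θ) N 1 1)) ^ 2 +
        8 * (∑ m₁ ∈ SD (X ^ θ) N, ∑ m₂ ∈ SD (X ^ θ) N,
        CD P (X ^ θ) N D m₁ * CD P (X ^ θ) N D m₂ * (Uf m₁ m₂ D - Uc m₁ m₂ D)) ^ 2) :=
        Finset.sum_le_sum fun D _ => key D
    _ ≤ 8 * (ε / 16 * X) + 8 * (ε / 16 * X) := by
        rw [Finset.sum_add_distrib, ← Finset.mul_sum, ← Finset.mul_sum]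
        linarith
    _ = ε * X := by ring

open Classical in
theorem pf_RCM (hTAU : T_TAU) : T_RCM := by
  intro ε hε
  obtain ⟨X₀, hX₀⟩ := hTAU (ε ^ 2) (by positivity)
  refine ⟨X₀, fun X hX K _ _ hK => ?_⟩
  have h := hX₀ X hX K hK
  have h0 : ∀ D, 0 ≤ (rc (K D) : ℝ) / classNumber (K D) := fun D => by positivity
  have h1 : ((((fam X).filter
      (fun D => ε < (rc (K D) : ℝ) / classNumber (K D))).card : ℝ)) * ε ≤
      ∑ D ∈ fam X, (rc (K D) : ℝ) / classNumber (K D) := by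
    calc ((((fam X).filter
      (fun D => ε < (rc (K D) : ℝ) / classNumber (K D))).card : ℝ)) * ε
        = ∑ D ∈ (fam X).filter (fun D => ε < (rc (K D) : ℝ) / classNumber (K D)), ε := by
          rw [Finset.sum_const, nsmul_eq_mul]
      _ ≤ ∑ D ∈ (fam X).filter (fun D => ε < (rc (K D) : ℝ) / classNumber (K D)),
          (rc (K D) : ℝ) / classNumber (K D) :=
          Finset.sum_le_sum fun D hD => (Finset.mem_filter.1 hD).2.le
      _ ≤ _ := Finset.sum_le_sum_of_subset_of_nonneg (Finset.filter_subset _ _)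
          fun D _ _ => h0 D
  have h2 := h1.trans h
  have h3 : ε * (((((fam X).filter
      (fun D => ε < (rc (K D) : ℝ) / classNumber (K D))).card : ℝ))) ≤
      ε * (ε * (fam X).card) := by
    calc _ ≤ ε ^ 2 * (fam X).card := by rw [mul_comm]; exact h2
      _ = _ := by ring
  exact le_of_mul_le_mul_left h3 hε

open Classical in
/-- (AR2) the theorem for the Artin `L`-functions, all Frobenius elements at once. -/
def T_AR2 : Prop :=
  ∀ ε : ℝ, 0 < ε → ∃ X₀ : ℝ, ∀ X : ℝ, X₀ ≤ X →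
    ∀ (K L : ℕ → Type) [∀ D, Field (K D)] [∀ D, NumberField (K D)] [∀ D, Field (L D)]
      [∀ D, NumberField (L D)] [∀ D, Algebra (K D) (L D)] [∀ D, IsGalois ℚ (L D)],
      (∀ D ∈ fam X, Module.finrank ℚ (K D) = 2 ∧ discr (K D) = -(D : ℤ) ∧
        Pool.Agent.H37.CA.IsRCF (K D) (L D) ⊤) →
      (∀ D ∈ fam X, (Pool.Agent.H37.CA.Irr (L D ≃ₐ[ℚ] L D)).Finite) ∧
      (((fam X).filter (fun D => ((GdI (L D)).ncard : ℝ) /
        (Pool.Agent.H37.CA.Irr (L D ≃ₐ[ℚ] L D)).ncard < 61 / 125 - ε)).card : ℝ) ≤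
        ε * (fam X).card

theorem pf_AR2 (hAAP : T_AAP) (hRCM : T_RCM) (hRAT : T_RT2) : T_AR2 := by
  classical
  intro ε hε
  obtain ⟨X₁, hX₁⟩ := hAAP (ε / 2) (by positivity)
  obtain ⟨X₂, hX₂⟩ := hRCM (ε / 8) (by positivity)
  refine ⟨max X₁ X₂, fun X hX K L _ _ _ _ _ _ hKL => ?_⟩
  have h1 := hX₁ X ((le_max_left _ _).trans hX) K (fun D hD => ⟨(hKL D hD).1, (hKL D hD).2.1⟩)
  have h2 := hX₂ X ((le_max_right _ _).trans hX) K (fun D hD => ⟨(hKL D hD).1, (hKL D hD).2.1⟩)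
  have h3 : ∀ D ∈ fam X, (Pool.Agent.H37.CA.Irr (L D ≃ₐ[ℚ] L D)).Finite ∧
      prp (K D) - 4 * ((rc (K D) : ℝ) / classNumber (K D)) ≤
        ((GdI (L D)).ncard : ℝ) / (Pool.Agent.H37.CA.Irr (L D ≃ₐ[ℚ] L D)).ncard := by
    intro D hD
    have hD' := hD
    unfold fam at hD'
    rw [Finset.mem_filter] at hD'
    exact hRAT D (K D) (L D) (by omega) (hKL D hD).1 (hKL D hD).2.1 (hKL D hD).2.2
  refine ⟨fun D hD => (h3 D hD).1, ?_⟩
  have hsub : (fam X).filter (fun D => ((GdI (L D)).ncard : ℝ) /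
        (Pool.Agent.H37.CA.Irr (L D ≃ₐ[ℚ] L D)).ncard < 61 / 125 - ε) ⊆
      (fam X).filter (fun D => prp (K D) < 61 / 125 - ε / 2) ∪
      (fam X).filter (fun D => ε / 8 < (rc (K D) : ℝ) / classNumber (K D)) := by
    intro D hD
    rw [Finset.mem_filter] at hD
    rw [Finset.mem_union, Finset.mem_filter, Finset.mem_filter]
    by_cases hc : prp (K D) < 61 / 125 - ε / 2
    · exact Or.inl ⟨hD.1, hc⟩
    · refine Or.inr ⟨hD.1, ?_⟩
      have := (h3 D hD.1).2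
      have := hD.2
      push Not at hc
      linarith
  have hcard : (((fam X).filter (fun D => ((GdI (L D)).ncard : ℝ) /
        (Pool.Agent.H37.CA.Irr (L D ≃ₐ[ℚ] L D)).ncard < 61 / 125 - ε)).card : ℝ) ≤
      ((fam X).filter (fun D => prp (K D) < 61 / 125 - ε / 2)).card +
      ((fam X).filter (fun D => ε / 8 < (rc (K D) : ℝ) / classNumber (K D))).card := by
    exact_mod_cast (Finset.card_le_card hsub).trans (Finset.card_union_le _ _)
  have hf : (0 : ℝ) ≤ (fam X).card := by positivity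
  refine hcard.trans ((add_le_add h1 h2).trans ?_)
  nlinarith

end Pool.Agent.H65.AD
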