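import Pool.Agent.H65.AD.TargetsB
import Pool.Agent.H31.CN.MAI
import Pool.Agent.H6.CN.BAS

/-!
# Almost all discriminants: the key lemma
-/

set_option autoImplicit false

open MeasureTheory Set Filter
open scoped Real

namespace Pool.Agent.H65.AD

open Pool.Agent.H31.CN Pool.Agent.H95.AD Pool.Agent.H50.CN

theorem Ph_split (a₁ a₀ b₂ b₁ b₀ lam : ℝ) (r : GR) :
    Ph lam r = lin (errf a₁ a₀ b₂ b₁ b₀ lam) r +
      lin (fun v => PP a₁ a₀ b₂ b₁ b₀ (lam - v.1) (lam - v.2)) r := by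
  rw [← lin_add_fun]
  unfold Ph
  congr 2
  funext v
  unfold errf
  ring

/-- the arithmetic at the end -/
theorem kl_num {C₃ C₄ K₁ H CN E l lX m V' θ : ℝ} (hC₃ : 0 ≤ C₃) (hC₄ : 0 ≤ C₄)
    (hE : 0 ≤ E) (hl : 1 ≤ l) (hm : 0 ≤ m) (hmV : m ≤ V') (hθ : 0 < θ) (hlX : l = θ * lX)
    (_hl0 : 0 < lX) :
    C₃ * (E * (2 * (K₁ * H) ^ 2 + 2 * CN ^ 2 / l ^ 2)) * (m * l⁻¹ + V' * (l ^ 2)⁻¹) * (C₄ * l) ≤
      E * (2 * C₃ * C₄ * K₁ ^ 2 * H ^ 2 * m +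
        C₃ * C₄ * (4 * CN ^ 2 + 2 * (K₁ * H) ^ 2) / θ * V' / lX) := by
  have hV : 0 ≤ V' := hm.trans hmV
  have hl0 : 0 < l := by linarith
  have e1 : C₃ * (E * (2 * (K₁ * H) ^ 2 + 2 * CN ^ 2 / l ^ 2)) * (m * l⁻¹ + V' * (l ^ 2)⁻¹) *
      (C₄ * l) = C₃ * C₄ * E * ((2 * (K₁ * H) ^ 2 + 2 * CN ^ 2 / l ^ 2) * (m + V' / l)) := by
    field_simp
  have e2 : E * (2 * C₃ * C₄ * K₁ ^ 2 * H ^ 2 * m +
        C₃ * C₄ * (4 * CN ^ 2 + 2 * (K₁ * H) ^ 2) / θ * V' / lX) =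
      C₃ * C₄ * E * (2 * (K₁ * H) ^ 2 * m + (4 * CN ^ 2 + 2 * (K₁ * H) ^ 2) * (V' / l)) := by
    rw [hlX]
    field_simp
  rw [e1, e2]
  refine mul_le_mul_of_nonneg_left ?_ (by positivity)
  have h1 : 2 * CN ^ 2 / l ^ 2 ≤ 2 * CN ^ 2 / l := by
    apply div_le_div_of_nonneg_left (by positivity) hl0
    nlinarith
  have h2 : 2 * CN ^ 2 / l ^ 2 ≤ 2 * CN ^ 2 := by
    apply div_le_self (by positivity)
    nlinarith
  have h3 : 2 * CN ^ 2 / l ^ 2 * m ≤ 2 * CN ^ 2 * (V' / l) := by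
    calc 2 * CN ^ 2 / l ^ 2 * m ≤ 2 * CN ^ 2 / l * V' := by
          refine mul_le_mul h1 hmV hm (by positivity)
      _ = _ := by ring
  have h4 : 2 * CN ^ 2 / l ^ 2 * (V' / l) ≤ 2 * CN ^ 2 * (V' / l) :=
    mul_le_mul_of_nonneg_right h2 (by positivity)
  nlinarith [h3, h4]

theorem pf_KL (hSSA : T_SSA) (hQWD : T_QWD) (hBMO : T_BMO) (hEOM : T_EOM) (hQU2 : T_QU2)
    (hMBD : T_MBD) (hPE2 : T_PE2) (hDSE : T_DSE) (hHQ : T_HQ) : T_KL := by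
  intro P θ L₀ hP hθ hθ4
  obtain ⟨-, a₁, a₀, b₂, b₁, b₀, C₀, hC₀, hS⟩ := hSSA
  obtain ⟨C₁, X₁, hC₁, h1⟩ := hPE2 P θ L₀ (C₀ * (1 + |c0|)) (errf a₁ a₀ b₂ b₁ b₀) hθ hθ4
    (by positivity) (fun lam v hv => errf_bd a₁ a₀ b₂ b₁ b₀ C₀ hC₀ hS lam v hv)
  obtain ⟨K₁, hK₁, hB⟩ := hBMO P hP
  obtain ⟨C₂, hC₂, hE⟩ := hEOM
  set K₂ := max C₂ ((1 / 2 + |L₀|) / θ) with hK₂
  have hK₂0 : 0 < K₂ := lt_of_lt_of_le hC₂ (le_max_left _ _)
  obtain ⟨C₃, hC₃, hQ⟩ := hQU2 a₁ a₀ b₂ b₁ b₀ K₂ hK₂0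
  obtain ⟨C₄, hC₄, hD⟩ := hDSE
  obtain ⟨C₅, hC₅, hH⟩ := hHQ
  refine ⟨2 * C₃ * C₄ * K₁ ^ 2, by positivity, fun N hN h2N hNsq => ?_⟩
  obtain ⟨CN, hCN, hBN⟩ := hB N hN h2N hNsq
  have hHN : 0 < Hq N := (hH N hN h2N).1
  refine ⟨C₃ * C₄ * (4 * CN ^ 2 + 2 * (K₁ * Hq N) ^ 2) / θ + C₁, max X₁ (Real.exp (1 / θ + 1)),
    by positivity, fun X lam hX hlam g V S w n₁ n₂ hV hS0 hSX hg hw hwN hn₁ hn₂ => ?_⟩
  have hX1 : X₁ ≤ X := (le_max_left _ _).trans hX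
  have hX2 : Real.exp (1 / θ + 1) ≤ X := (le_max_right _ _).trans hX
  have hX0 : 0 < X := (Real.exp_pos _).trans_le hX2
  have hlX : 1 / θ + 1 ≤ Real.log X := (Real.le_log_iff_exp_le hX0).2 hX2
  have hθ1 : 0 < 1 / θ := by positivity
  have hlX1 : 1 ≤ Real.log X := by linarith
  have hlX0 : 0 < Real.log X := by linarith
  set l := Real.log (X ^ θ) with hl
  have hl' : l = θ * Real.log X := Real.log_rpow hX0 θ
  have hl1 : 1 ≤ l := by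
    rw [hl']
    have : θ * (1 / θ) ≤ θ * Real.log X := mul_le_mul_of_nonneg_left (by linarith) hθ.le
    rwa [mul_one_div_cancel hθ.ne'] at this
  have hl0 : 0 < l := by linarith
  have hM2 : (2 : ℝ) ≤ X ^ θ := by
    have hp : 0 < X ^ θ := Real.rpow_pos_of_pos hX0 θ
    have h : Real.exp 1 ≤ X ^ θ := (Real.le_log_iff_exp_le hp).1 hl1
    have := Real.add_one_le_exp (1 : ℝ)
    linarith
  have hlam' : |lam| ≤ K₂ * l := by
    have e1 : |lam| ≤ (1 / 2 + |L₀|) * Real.log X := by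
      have h2 : |lam| ≤ |lam - 1 / 2 * Real.log X| + |1 / 2 * Real.log X| := by
        have := abs_add_le (lam - 1 / 2 * Real.log X) (1 / 2 * Real.log X)
        rwa [sub_add_cancel] at this
      rw [abs_of_nonneg (by positivity : (0 : ℝ) ≤ 1 / 2 * Real.log X)] at h2
      have h3 : L₀ ≤ |L₀| * Real.log X :=
        (le_abs_self L₀).trans (le_mul_of_one_le_right (abs_nonneg _) hlX1)
      nlinarith
    have e2 : (1 / 2 + |L₀|) * Real.log X = (1 / 2 + |L₀|) / θ * l := by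
      rw [hl']
      field_simp
    rw [e2] at e1
    exact e1.trans (mul_le_mul_of_nonneg_right (le_max_right _ _) hl0.le)
  have hgm : ∀ i j, i + j ≤ 3 → |mo i j g| ≤ V * (1 + S) ^ 3 :=
    fun i j hij => hMBD V S g i j hV hS0 hg hij
  set V' := V * (1 + S) ^ 3 with hV'
  have hV'0 : 0 ≤ V' := by positivity
  have hm0 : |mo 0 0 g| ≤ V' := hgm 0 0 (by norm_num)
  have hEw : 1 ≤ Ef w := one_le_Ef w
  have hEw0 : 0 < Ef w := by linarith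
  -- the error functional
  have herr := h1 X lam hX1 hlam g V S N w n₁ n₂ hV hS0 hSX hg hN hw hn₁ hn₂
  -- the polynomial functional
  have hw0 : w ≠ 0 := hw.ne_zero
  set s := (Finset.Icc 1 ⌊X ^ θ⌋₊).filter (fun d => Squarefree d) with hs
  have hmain : |lin (fun v => PP a₁ a₀ b₂ b₁ b₀ (lam - v.1) (lam - v.2))
      (g * QW P (X ^ θ) N w n₁ n₂)| ≤
      C₃ * (Ef w ^ 4 * (2 * (K₁ * Hq N) ^ 2 + 2 * CN ^ 2 / l ^ 2)) *
        (|mo 0 0 g| * l⁻¹ + V' * (l ^ 2)⁻¹) * (C₄ * l) := by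
    rw [hQWD P (X ^ θ) N w n₁ n₂ (by linarith) hN hw hn₁ hn₂, Finset.mul_sum, map_sum]
    refine (Finset.abs_sum_le_sum_abs _ _).trans ?_
    have key : ∀ d ∈ s, |lin (fun v => PP a₁ a₀ b₂ b₁ b₀ (lam - v.1) (lam - v.2))
        (g * ((∏ p ∈ d.primeFactors, eo p) * (Bw P (X ^ θ) N w n₁ d * Bw P (X ^ θ) N w n₂ d)))| ≤
        C₃ * (Ef w ^ 4 * (2 * (K₁ * Hq N) ^ 2 + 2 * CN ^ 2 / l ^ 2)) *
          (|mo 0 0 g| * l⁻¹ + V' * (l ^ 2)⁻¹) * (Ef d ^ 8 / d) := by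
      intro d hd
      obtain ⟨hd1, hdsq⟩ := Finset.mem_filter.1 hd
      have hd1' : 1 ≤ d := (Finset.mem_Icc.1 hd1).1
      have hdR : (1 : ℝ) ≤ d := by exact_mod_cast hd1'
      have hd0 : (0 : ℝ) < d := by linarith
      set b := K₁ * Hq N * Ef (d * w) + CN * Ef (d * w) ^ 2 / l with hb
      have hEdw : 1 ≤ Ef (d * w) := one_le_Ef _
      have hb0 : 0 ≤ b := by positivity
      have hmom : ∀ n, n ∣ w → ∀ i j, i + j ≤ 3 →
          |mo i j (Bw P (X ^ θ) N w n d)| ≤ b * l ^ ((i : ℤ) + j - 2) := by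
        intro n hn i j hij
        refine (hBN (X ^ θ) w n d i j hM2 hw hwN hn hdsq hij).trans (le_of_eq ?_)
        rw [← hl]
        have e : l ^ ((i : ℤ) + j - 3) = l ^ ((i : ℤ) + j - 2) / l := by
          rw [show ((i : ℤ) + j - 3) = ((i : ℤ) + j - 2) - 1 by ring, zpow_sub_one₀ hl0.ne']
          rfl
        rw [e, hb]
        ring
      have hq := hQ g (∏ p ∈ d.primeFactors, eo p) (Bw P (X ^ θ) N w n₁ d)
        (Bw P (X ^ θ) N w n₂ d) l lam d b V' (by linarith) hlam' hdR hb0 hgm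
        (fun i j hij => ((hE d hdsq).1 i j hij).trans
          (div_le_div_of_nonneg_right (le_max_left _ _) hd0.le))
        (hmom n₁ hn₁) (hmom n₂ hn₂)
      refine hq.trans ?_
      have hzp1 : l ^ (-1 : ℤ) = l⁻¹ := zpow_neg_one l
      have hzp2 : l ^ (-2 : ℤ) = (l ^ 2)⁻¹ := by
        rw [zpow_neg]
        norm_cast
      rw [hzp1, hzp2]
      have hEd : 1 ≤ Ef d := one_le_Ef d
      have hmul : Ef (d * w) ≤ Ef d * Ef w :=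
        Pool.Agent.H6.CN.Ef_mul_le d w (by omega) hw0
      have hbsq : b ^ 2 ≤ Ef d ^ 8 * (Ef w ^ 4 * (2 * (K₁ * Hq N) ^ 2 + 2 * CN ^ 2 / l ^ 2)) := by
        have i1 : b ^ 2 ≤ 2 * (K₁ * Hq N * Ef (d * w)) ^ 2 +
            2 * (CN * Ef (d * w) ^ 2 / l) ^ 2 := by
          rw [hb]
          nlinarith [sq_nonneg (K₁ * Hq N * Ef (d * w) - CN * Ef (d * w) ^ 2 / l)]
        have i2 : Ef (d * w) ^ 2 ≤ Ef d ^ 8 * Ef w ^ 4 := by
          calc Ef (d * w) ^ 2 ≤ (Ef d * Ef w) ^ 2 :=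
                pow_le_pow_left₀ (by linarith) hmul 2
            _ = Ef d ^ 2 * Ef w ^ 2 := by ring
            _ ≤ Ef d ^ 8 * Ef w ^ 4 := mul_le_mul (pow_le_pow_right₀ hEd (by norm_num))
                (pow_le_pow_right₀ hEw (by norm_num)) (by positivity) (by positivity)
        have i3 : Ef (d * w) ^ 4 ≤ Ef d ^ 8 * Ef w ^ 4 := by
          calc Ef (d * w) ^ 4 ≤ (Ef d * Ef w) ^ 4 :=
                pow_le_pow_left₀ (by linarith) hmul 4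
            _ = Ef d ^ 4 * Ef w ^ 4 := by ring
            _ ≤ Ef d ^ 8 * Ef w ^ 4 := mul_le_mul_of_nonneg_right
                (pow_le_pow_right₀ hEd (by norm_num)) (by positivity)
        calc b ^ 2 ≤ 2 * (K₁ * Hq N * Ef (d * w)) ^ 2 +
            2 * (CN * Ef (d * w) ^ 2 / l) ^ 2 := i1
          _ = 2 * (K₁ * Hq N) ^ 2 * Ef (d * w) ^ 2 + 2 * CN ^ 2 / l ^ 2 * Ef (d * w) ^ 4 := by
              field_simp
          _ ≤ 2 * (K₁ * Hq N) ^ 2 * (Ef d ^ 8 * Ef w ^ 4) +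
              2 * CN ^ 2 / l ^ 2 * (Ef d ^ 8 * Ef w ^ 4) :=
              add_le_add (mul_le_mul_of_nonneg_left i2 (by positivity))
                (mul_le_mul_of_nonneg_left i3 (by positivity))
          _ = _ := by ring
      have hr : 0 ≤ |mo 0 0 g| * l⁻¹ + V' * (l ^ 2)⁻¹ := by positivity
      calc C₃ * b ^ 2 / d * (|mo 0 0 g| * l⁻¹ + V' * (l ^ 2)⁻¹)
          ≤ C₃ * (Ef d ^ 8 * (Ef w ^ 4 * (2 * (K₁ * Hq N) ^ 2 + 2 * CN ^ 2 / l ^ 2))) / d *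
            (|mo 0 0 g| * l⁻¹ + V' * (l ^ 2)⁻¹) := by
            refine mul_le_mul_of_nonneg_right ?_ hr
            exact div_le_div_of_nonneg_right (mul_le_mul_of_nonneg_left hbsq hC₃.le) hd0.le
        _ = _ := by ring
    refine (Finset.sum_le_sum key).trans ?_
    rw [← Finset.mul_sum]
    exact mul_le_mul_of_nonneg_left (hD (X ^ θ) hM2) (by positivity)
  have hfin := kl_num (C₃ := C₃) (C₄ := C₄) (K₁ := K₁) (H := Hq N) (CN := CN)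
    (E := Ef w ^ 4) (l := l) (lX := Real.log X) (m := |mo 0 0 g|) (V' := V') (θ := θ) hC₃.le
    hC₄.le (by positivity) hl1 (abs_nonneg _) hm0 hθ hl' hlX0
  rw [Ph_split a₁ a₀ b₂ b₁ b₀ lam]
  refine (abs_add_le _ _).trans ((add_le_add herr (hmain.trans hfin)).trans ?_)
  have hE4 : 1 ≤ Ef w ^ 4 := one_le_pow₀ hEw
  have hS3 : 1 ≤ (1 + S) ^ 3 := one_le_pow₀ (by linarith)
  have hlast : C₁ * V / Real.log X ≤ Ef w ^ 4 * (C₁ * V * (1 + S) ^ 3 / Real.log X) := by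
    have i1 : C₁ * V ≤ C₁ * V * (1 + S) ^ 3 := le_mul_of_one_le_right (by positivity) hS3
    calc C₁ * V / Real.log X ≤ C₁ * V * (1 + S) ^ 3 / Real.log X :=
          div_le_div_of_nonneg_right i1 hlX0.le
      _ ≤ _ := le_mul_of_one_le_left (by positivity) hE4
  calc C₁ * V / Real.log X + Ef w ^ 4 * (2 * C₃ * C₄ * K₁ ^ 2 * Hq N ^ 2 * |mo 0 0 g| +
        C₃ * C₄ * (4 * CN ^ 2 + 2 * (K₁ * Hq N) ^ 2) / θ * V' / Real.log X)
      ≤ Ef w ^ 4 * (C₁ * V * (1 + S) ^ 3 / Real.log X) +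
        Ef w ^ 4 * (2 * C₃ * C₄ * K₁ ^ 2 * Hq N ^ 2 * |mo 0 0 g| +
        C₃ * C₄ * (4 * CN ^ 2 + 2 * (K₁ * Hq N) ^ 2) / θ * V' / Real.log X) := by
        linarith
    _ = Ef w ^ 4 * (2 * C₃ * C₄ * K₁ ^ 2 * Hq N ^ 2 * |mo 0 0 g| +
        (C₃ * C₄ * (4 * CN ^ 2 + 2 * (K₁ * Hq N) ^ 2) / θ + C₁) * V * (1 + S) ^ 3 /
          Real.log X) := by
        rw [hV']
        ring

end Pool.Agent.H65.AD
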