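import Pool.Agent.H11.AD.RBC
import Pool.Agent.H11.AD.UCG
import Pool.Agent.H14.AD.NLC
import Pool.Agent.H14.AD.QBD
import Pool.Agent.H19.ADM.GCB
import Pool.Agent.H19.ADM.KMD
import Pool.Agent.H19.ADM.TLB
import Pool.Agent.H19.ADM.UCD
import Pool.Agent.H19.ADM.ZEX
import Pool.Agent.H31.CN.FinB
import Pool.Agent.H37.AD.QLS
import Pool.Agent.H46.AD.BMO
import Pool.Agent.H46.AD.NRF
import Pool.Agent.H48.AD.HLB
import Pool.Agent.H48.AD.RTS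
import Pool.Agent.H50.AD.GLE
import Pool.Agent.H50.AD.PE2
import Pool.Agent.H51.AD.ZVR
import Pool.Agent.H54.AD.DCM
import Pool.Agent.H54.AD.EXP
import Pool.Agent.H59.AD.BUM
import Pool.Agent.H59.AD.QU2
import Pool.Agent.H60.AD.EOM
import Pool.Agent.H60.AD.NRR
import Pool.Agent.H60.AD.RPF
import Pool.Agent.H61.AD.CNB
import Pool.Agent.H65.AD.KL
import Pool.Agent.H65.AD.Sml
import Pool.Agent.H68.AD.CHV
import Pool.Agent.H69.AD.ABS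
import Pool.Agent.H69.AD.ZCF
import Pool.Agent.H70.AD.REP
import Pool.Agent.H72.AD.NRM
import Pool.Agent.H74.AD.GID
import Pool.Agent.H74.AD.LLB
import Pool.Agent.H74.AD.SMR
import Pool.Agent.H79.AD.DLS
import Pool.Agent.H79.AD.GSB
import Pool.Agent.H79.AD.SMP
import Pool.Agent.H88.AD.HQB
import Pool.Agent.H88.AD.UCV
import Pool.Agent.H91.AD.KTL
import Pool.Agent.H91.AD.MNM
import Pool.Agent.H95.AD.AAP
import Pool.Agent.H95.AD.AsmU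
import Pool.Agent.H95.AD.BMU
import Pool.Agent.H95.AD.FGS
import Pool.Agent.H95.AD.GAM
import Pool.Agent.H95.AD.OP8
import Pool.Agent.H95.AD.QWD
import Pool.Agent.H95.AD.SGN

/-!
# Almost all discriminants: the assembly
-/

set_option autoImplicit false

namespace Pool.Agent.H65.AD.Fin

open Pool.Agent.H31.CN Pool.Agent.H31.CN.Fin Pool.Agent.H65.AD

theorem u_UFN : Pool.Agent.H95.AD.T_UFN := Pool.Agent.H95.AD.a_UFN

theorem u_DLS : Pool.Agent.H95.AD.T_DLS := Pool.Agent.H79.AD.pf_DLS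

theorem u_NRF : Pool.Agent.H95.AD.T_NRF := Pool.Agent.H46.AD.pf_NRF

theorem a_SGN : T_SGN := Pool.Agent.H95.ADM.pf_SGN

theorem a_CHV : T_CHV := Pool.Agent.H68.ADM.pf_CHV

theorem a_ABS : T_ABS := Pool.Agent.H69.ADM.pf_ABS

theorem a_GID : T_GID := Pool.Agent.H74.ADM.pf_GID

theorem a_GLE : T_GLE := Pool.Agent.H50.ADM.pf_GLE

theorem a_REP : T_REP := Pool.Agent.H70.ADM.pf_REP

theorem a_RBC : T_RBC := Pool.Agent.H11.AD.pf_RBC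

theorem a_NRM : T_NRM := Pool.Agent.H72.AD.pf_NRM

theorem a_NRR : T_NRR := Pool.Agent.H60.AD.pf_NRR

theorem a_SMR : T_SMR := Pool.Agent.H74.ADM.pf_SMR

theorem a_UCD : T_UCD := Pool.Agent.H19.ADM.pf_UCD

theorem a_HQB : T_HQB := Pool.Agent.H88.AD.pf_HQB

theorem a_OP8 : T_OP8 := Pool.Agent.H95.ADM.pf_OP8

theorem a_BUM : T_BUM := Pool.Agent.H59.AD.pf_BUM

theorem a_MBD : T_MBD := Pool.Agent.H65.AD.pf_MBD

theorem a_CHB : T_CHB := Pool.Agent.H65.AD.pf_CHB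

theorem a_TPS : T_TPS := Pool.Agent.H65.AD.pf_TPS c_UNF

theorem a_RCM : T_RCM := Pool.Agent.H65.AD.pf_RCM c_TAU

theorem a_UF8 : T_UFN8 := Pool.Agent.H65.AD.pf_UF8 u_UFN

theorem a_NLC : T_NLC := Pool.Agent.H14.AD.pf_NLC u_NRF a_CHV

theorem a_RTS : T_RTS := Pool.Agent.H48.ADM.pf_RTS a_NRM a_NRR a_CHV a_RBC a_NLC

theorem a_UCV : T_UCV := Pool.Agent.H88.AD.pf_UCV a_RTS c_VK

theorem a_RPF : T_RPF := Pool.Agent.H60.AD.pf_RPF c_SSA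

theorem a_UCG : T_UCG := Pool.Agent.H11.AD.pf_UCG a_RPF

theorem a_EXP : T_EXP := Pool.Agent.H54.ADM.pf_EXP a_CHV

theorem a_KTL : T_KTL := Pool.Agent.H91.ADM.pf_KTL c_VK

theorem a_DCM : T_DCM := Pool.Agent.H54.ADM.pf_DCM a_UCV a_UCD a_EXP a_UCG a_KTL a_CHV a_SGN

theorem a_EOM : T_EOM := Pool.Agent.H60.AD.pf_EOM c_MOM

theorem a_CNB : T_CNB := Pool.Agent.H61.AD.pf_CNB a_GLE

theorem a_QWD : T_QWD := Pool.Agent.H95.ADM.pf_QWD a_CNB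

theorem a_QBD : T_QBD := Pool.Agent.H14.AD.pf_QBD a_QWD a_EOM

theorem a_PE2 : T_PE2 := Pool.Agent.H50.ADM.pf_PE2 a_QBD

theorem a_BMO : T_BMO := Pool.Agent.H46.ADM.pf_BMO c_BK c_VS c_BDM c_HQ

theorem a_QU2 : T_QU2 := Pool.Agent.H59.AD.pf_QU2 c_MOM

theorem a_KL : T_KL := Pool.Agent.H65.AD.pf_KL c_SSA a_QWD a_BMO a_EOM a_QU2 a_MBD a_PE2 c_DSE c_HQ

theorem a_GSB : T_GSB := Pool.Agent.H79.AD.pf_GSB a_KL a_GID a_GLE a_ABS c_MOM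

theorem a_QLS : T_QLS := Pool.Agent.H37.ADM.pf_QLS u_DLS a_REP

theorem a_HLB : T_HLB := Pool.Agent.H48.ADM.pf_HLB a_QLS

theorem a_LLB : T_LLB := Pool.Agent.H74.ADM.LLB.pf_LLB a_ABS

theorem a_GCB : T_GCB := Pool.Agent.H19.ADM.pf_GCB a_LLB a_SGN

theorem a_KMD : T_KMD := Pool.Agent.H19.ADM.pf_KMD c_VK

theorem a_SMP : T_SMP := Pool.Agent.H79.AD.pf_SMP a_GSB a_SGN a_HLB a_HQB a_CHV

theorem a_TLB : T_TLB := Pool.Agent.H19.ADM.pf_TLB a_SMR a_KMD a_GCB a_HLB a_CHV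

theorem a_MNM : T_MNM := Pool.Agent.H91.ADM.pf_MNM a_DCM a_TLB a_SMP

theorem a_TVR : T_TVR := Pool.Agent.H65.AD.pf_TVR a_UF8 a_MNM

theorem a_FGS : T_FGS := Pool.Agent.H95.ADM.pf_FGS c_CHS

theorem a_GAM : T_GAM := Pool.Agent.H95.ADM.pf_GAM a_TVR a_TPS a_BUM a_FGS c_SM2 c_CRR

theorem a_BMU : T_BMU := Pool.Agent.H95.ADM.pf_BMU c_MU1

theorem a_ZCF : T_ZCF := Pool.Agent.H69.ADM.pf_ZCF a_BMU

theorem a_ZEX : T_ZEX := Pool.Agent.H19.ADM.pf_ZEX c_PZ2 a_CHV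

theorem a_ZVR : T_ZVR := Pool.Agent.H51.ADM.pf_ZVR a_ZCF a_ZEX a_QLS c_MU3

theorem a_AAP : T_AAP := Pool.Agent.H95.ADM.pf_AAP a_TVR a_GAM a_CHB a_ZVR a_OP8 c_PRO c_CHS

theorem a_AR2 : T_AR2 := pf_AR2 a_AAP a_RCM c_RT2

end Pool.Agent.H65.AD.Fin
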