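import Pool.Agent.H95.AD.Defs

/-!
# Almost all discriminants: definitions for the main term and for the assembly
-/

set_option autoImplicit false

open MeasureTheory Set Filter
open scoped Real

namespace Pool.Agent.H65.AD

open Pool.Agent.H31.CN Pool.Agent.H95.AD

/-! ### The local functions -/

/-- the coefficients of the local functions: `c = 0` the constant part, `c = 1` the part that is
multiplied by the quadratic character, `c = 2` the correction at the ramified primes; `j` is the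
number of `m₁`, `m₂` divisible by the prime number `p`; the entry `(i, k)` is the coefficient of
`[p ^ i ∣ A] [p ^ k ∣ e]` -/
noncomputable def ec : ℕ → ℕ → ℕ → ℕ → ℝ
  | 0, 0, 0, 0 => 1
  | 0, 1, 1, 0 => 1
  | 0, 1, 0, 1 => 1
  | 0, 2, 0, 1 => 1
  | 0, 2, 0, 2 => 1
  | 0, 2, 1, 1 => 2
  | 0, 2, 2, 0 => 1
  | 0, 2, 2, 1 => -1
  | 1, 0, 1, 0 => 1
  | 1, 1, 1, 0 => 1
  | 1, 1, 0, 1 => 1
  | 1, 2, 0, 1 => 1
  | 1, 2, 0, 2 => 1
  | 1, 2, 1, 1 => 2
  | 1, 2, 2, 0 => 1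
  | 1, 2, 2, 1 => -1
  | 2, 0, 2, 0 => -1
  | 2, 1, 1, 1 => -1
  | 2, 1, 2, 0 => -1
  | 2, 2, 0, 2 => -1
  | 2, 2, 1, 1 => -2
  | 2, 2, 2, 0 => -1
  | _, _, _, _ => 0

/-- the coefficients for the value `x` of the quadratic character -/
noncomputable def qT (x : ℤ) (j i k : ℕ) : ℝ :=
  ec 0 j i k + x * ec 1 j i k + if x = 0 then ec 2 j i k else 0

/-- the local function with the coefficients `q` -/
noncomputable def loc (q : ℕ → ℕ → ℝ) (p e A : ℕ) : ℝ :=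
  ∑ i ∈ Finset.range 3, ∑ k ∈ Finset.range 3, if p ^ i ∣ A ∧ p ^ k ∣ e then q i k else 0

/-- the element of the group ring of the local function with the coefficients `q`; `j` is the
exponent of `p` in `m₁ m₂` -/
noncomputable def gel (q : ℕ → ℕ → ℝ) (j p : ℕ) : GR :=
  ∑ i ∈ Finset.range 3, ∑ k ∈ Finset.range 3, (q i k / (p : ℝ) ^ (i + k)) •
    E (i * Real.log p) (((i : ℝ) + 2 * k - j) * Real.log p)

/-- the class of the prime number `p` for the pair `(r, t)` -/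
def cl (r t p : ℕ) : ℕ := if p ∣ r then 1 else if p ∣ t then 2 else 0

/-- the product of the quadratic characters at the prime divisors of `r` -/
noncomputable def xD (r D : ℕ) : ℝ := ∏ p ∈ r.primeFactors, (chi p D : ℝ)

/-- the pairs `(r, t)` -/
def idx (N Y : ℕ) : Finset (ℕ × ℕ) :=
  ((Finset.Icc 1 Y) ×ˢ (Finset.Icc 1 Y)).filter
    (fun x => Squarefree (x.1 * x.2) ∧ Nat.Coprime (x.1 * x.2) N)

/-- the local functions of the pair `(r, t)`, multiplied -/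
noncomputable def LL (r t m₁ m₂ e A : ℕ) : ℝ :=
  ∏ p ∈ (m₁ * m₂ * (r * t)).primeFactors, loc (ec (cl r t p) (tt p m₁ m₂)) p e A

/-- the element of the group ring of the pair `(r, t)` -/
noncomputable def LG (r t m₁ m₂ : ℕ) : GR :=
  ∏ p ∈ (m₁ * m₂ * (r * t)).primeFactors, gel (ec (cl r t p) (tt p m₁ m₂)) (tt p m₁ m₂) p

/-- the element of the group ring of the pair `(r, t)`, summed over the mollifier -/
noncomputable def GS (P : Polynomial ℝ) (M : ℝ) (N r t : ℕ) : GR :=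
  ∑ m₁ ∈ Finset.Icc 1 ⌊M⌋₊, ∑ m₂ ∈ Finset.Icc 1 ⌊M⌋₊,
    (cm P M N m₁ * cm P M N m₂) • LG r t m₁ m₂

/-- the same, without the local elements at the prime divisors of `w` -/
noncomputable def QW (P : Polynomial ℝ) (M : ℝ) (N w n₁ n₂ : ℕ) : GR :=
  ∑ m₁ ∈ (Finset.Icc 1 ⌊M⌋₊).filter (fun m => Nat.Coprime m w),
    ∑ m₂ ∈ (Finset.Icc 1 ⌊M⌋₊).filter (fun m => Nat.Coprime m w),
      (cm P M N (n₁ * m₁) * cm P M N (n₂ * m₂)) •
        ∏ p ∈ (m₁ * m₂).primeFactors, gel (ec 0 (tt p m₁ m₂)) (tt p m₁ m₂) p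

/-- the diagonal element -/
noncomputable def eo (p : ℕ) : GR :=
  (1 / (p : ℝ)) • (1 : GR) - (1 / (p : ℝ) ^ 3) • E (2 * Real.log p) (2 * Real.log p)

/-! ### The small primes -/

/-- the coefficients at the small primes, for the values `x p` of the quadratic character -/
noncomputable def anx (N : ℕ) (x : ℕ → ℤ) (n : ℕ) : ℝ :=
  ∏ p ∈ N.primeFactors, if p ∣ n then -1 else 1 + (x p : ℝ) / p

/-- the local function at the small primes -/
noncomputable def lN (N : ℕ) (x : ℕ → ℤ) (n₁ n₂ e A : ℕ) : ℝ :=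
  ∏ p ∈ N.primeFactors, loc (qT (x p) (tt p n₁ n₂)) p e A

/-- the element of the group ring at the small primes -/
noncomputable def sN (N : ℕ) (x : ℕ → ℤ) : GR :=
  ∑ n₁ ∈ N.divisors, ∑ n₂ ∈ N.divisors, (anx N x n₁ * anx N x n₂) •
    ∏ p ∈ N.primeFactors, gel (qT (x p) (tt p n₁ n₂)) (tt p n₁ n₂) p

/-- the product over the small primes -/
noncomputable def rho (N : ℕ) : ℝ := ∏ p ∈ N.primeFactors, (1 - 1 / (p : ℝ)) ^ 3

/-! ### The parts of the second moment -/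

/-- the main part of the second moment -/
noncomputable def MD (P : Polynomial ℝ) (M : ℝ) (N D : ℕ) : ℝ :=
  ∑ m₁ ∈ SD M N, ∑ m₂ ∈ SD M N, CD P M N D m₁ * CD P M N D m₂ * Uc m₁ m₂ D

/-- the second moment -/
noncomputable def TD (P : Polynomial ℝ) (M : ℝ) (N D : ℕ) : ℝ :=
  2 * ∑ m₁ ∈ SD M N, ∑ m₂ ∈ SD M N, CD P M N D m₁ * CD P M N D m₂ * Uf m₁ m₂ D

/-- the first moment -/
noncomputable def ZD (P : Polynomial ℝ) (M : ℝ) (N D : ℕ) : ℝ :=
  Zc (SD M N) (CD P M N D) (1, 1, ((D : ℤ) + 1) / 4)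

/-- the part of the main part with small `r t` -/
noncomputable def Sm (P : Polynomial ℝ) (M : ℝ) (N : ℕ) (W : ℝ) (D : ℕ) : ℝ :=
  ∑ x ∈ (idx N ⌊W⌋₊).filter (fun x => ((x.1 * x.2 : ℕ) : ℝ) ≤ W),
    xD x.1 D * (if x.2 ∣ D then 1 else 0) *
      Ph (Real.log (Real.sqrt D)) (sN N (fun p => chi p D) * GS P M N x.1 x.2)

/-- the kernel of the main part -/
noncomputable def kM (u : ℝ) (n e A : ℕ) : ℝ :=
  Vk ((e : ℝ) ^ 2 * A / ((n : ℝ) * Real.sqrt u)) / ((e : ℝ) * A) *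
    (Real.log (Real.sqrt u) - Real.log A + c0)

/-- the range of the truncated sums -/
noncomputable def Bx (X δ : ℝ) (n : ℕ) : Finset (ℕ × ℕ) :=
  ((Finset.Icc 1 ⌊X⌋₊) ×ˢ (Finset.Icc 1 ⌊X⌋₊)).filter
    (fun x => (x.1 : ℝ) ^ 2 * x.2 ≤ n * X ^ (1 / 2 + δ))

/-- the truncated coefficient of the pair `(r, t)`, for a kernel `κ` -/
noncomputable def gC (P : Polynomial ℝ) (M : ℝ) (N : ℕ) (X δ : ℝ) (x : ℕ → ℤ)
    (κ : ℕ → ℕ → ℕ → ℝ) (r t : ℕ) : ℝ :=
  ∑ n₁ ∈ N.divisors, ∑ n₂ ∈ N.divisors, anx N x n₁ * anx N x n₂ *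
    ∑ m₁ ∈ Finset.Icc 1 ⌊M⌋₊, ∑ m₂ ∈ Finset.Icc 1 ⌊M⌋₊, cm P M N m₁ * cm P M N m₂ *
      ∑ y ∈ Bx X δ (n₁ * n₂ * (m₁ * m₂)), κ (n₁ * n₂ * (m₁ * m₂)) y.1 y.2 *
        lN N x n₁ n₂ y.1 y.2 * LL r t m₁ m₂ y.1 y.2

/-- the pairs `(r, t)` of the tail -/
noncomputable def idT (N Y : ℕ) (W : ℝ) : Finset (ℕ × ℕ) :=
  (idx N Y).filter (fun x => W < ((x.1 * x.2 : ℕ) : ℝ))

/-- the tail of the main part, with kernel `κ` and quadratic characters `x` at the small primes -/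
noncomputable def TF (P : Polynomial ℝ) (M : ℝ) (N : ℕ) (X δ : ℝ) (Y : ℕ) (W : ℝ) (x : ℕ → ℤ)
    (κ : ℕ → ℕ → ℕ → ℝ) (D : ℕ) : ℝ :=
  ∑ z ∈ idT N Y W, xD z.1 D * (if z.2 ∣ D then 1 else 0) * gC P M N X δ x κ z.1 z.2

/-- the range of the discriminants -/
noncomputable def faE (η X : ℝ) : Finset ℕ := (fam X).filter (fun D => η * X ≤ D)

end Pool.Agent.H65.AD
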