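import Pool.Agent.H65.AD.Defs
import Pool.Agent.H31.CN.T5
import Pool.Agent.H50.CN.PER

/-!
# Almost all discriminants: targets, part 1 (large sieve for quadratic characters, roots of
quadratic congruences, local weights)
-/

set_option autoImplicit false

open MeasureTheory Set Filter
open scoped Real

namespace Pool.Agent.H65.AD

open Pool.Agent.H31.CN Pool.Agent.H95.AD Pool.Agent.H50.CN

/-! ### Quadratic characters -/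

/-- (REP) the quadratic character as a combination of additive characters. -/
def T_REP : Prop :=
  ∀ r : ℕ, 1 < r → Odd r → Squarefree r → ∃ ε : ℕ → ℂ, (∀ a, ‖ε a‖ ≤ 1) ∧
    ∀ D : ℕ, ((xD r D : ℝ) : ℂ) = ((1 / Real.sqrt r : ℝ) : ℂ) *
      ∑ a ∈ (Finset.range r).filter (fun a => Nat.Coprime a r), ε a * ee ((D : ℝ) * ((a : ℝ) / r))

/-- (QLS) the large sieve for the quadratic characters. -/
def T_QLS : Prop :=
  ∃ C : ℝ, 0 < C ∧ ∀ (X : ℝ) (Y : ℕ) (s : Finset ℕ) (b : ℕ → ℝ), 1 ≤ X →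
    (∀ r ∈ s, 2 ≤ r ∧ r ≤ Y ∧ Odd r ∧ Squarefree r) →
    ∑ D ∈ Finset.Icc 1 ⌊X⌋₊, (∑ r ∈ s, b r * xD r D) ^ 2 ≤
      C * (X + (Y : ℝ) ^ 2) * ∑ r ∈ s, b r ^ 2

/-- (HLB) the sum over the pairs `(r, t)` with large `r t`. -/
def T_HLB : Prop :=
  ∀ κ : ℝ, 0 < κ → κ ≤ 1 / 8 → ∃ C : ℝ, 0 < C ∧
    ∀ (X W K : ℝ) (N Y : ℕ) (h : ℕ × ℕ → ℝ), 1 ≤ X → 1 ≤ W → 0 ≤ K → 1 ≤ N → 2 ∣ N →
      (∀ z ∈ idT N Y W, |h z| ≤
        K * (((z.1 * z.2 : ℕ) : ℝ) ^ κ / ((z.1 : ℝ) * (z.2 : ℝ) ^ 2))) →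
      ∑ D ∈ Finset.Icc 1 ⌊X⌋₊,
        (∑ z ∈ idT N Y W, xD z.1 D * (if z.2 ∣ D then 1 else 0) * h z) ^ 2 ≤
        C * K ^ 2 * (X * W ^ (-(1 / 2) : ℝ) + (Y : ℝ) ^ (1 + 2 * κ))

/-! ### Roots and local weights for fundamental discriminants -/

/-- (NRM) the number of roots is multiplicative in the modulus. -/
def T_NRM : Prop :=
  ∀ (a b : ℕ) (A B C : ℤ), 1 ≤ a → 1 ≤ b → Nat.Coprime a b →
    nrt (a * b) A B C = nrt a A B C * nrt b A B C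

/-- (NRR) roots modulo prime powers. -/
def T_NRR : Prop :=
  ∀ D p k : ℕ, D % 4 = 3 → Squarefree D → p.Prime → 1 ≤ k →
    (nrt (p ^ k) 1 1 (((D : ℤ) + 1) / 4) : ℤ) =
      if p ∣ D then (if k = 1 then 1 else 0) else 1 + chi p D

/-- (CHV) the values of the quadratic character. -/
def T_CHV : Prop :=
  ∀ D p : ℕ, D % 4 = 3 → p.Prime →
    (chi p D = 1 ∨ chi p D = 0 ∨ chi p D = -1) ∧ (chi p D = 0 ↔ p ∣ D)

/-- (RBC) the roots of `B² = -D` modulo `4 A`. -/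
def T_RBC : Prop :=
  ∀ D A : ℕ, D % 4 = 3 → 1 ≤ A →
    ((Finset.range (2 * A)).filter (fun B => 4 * A ∣ B ^ 2 + D)).card =
      nrt A 1 1 (((D : ℤ) + 1) / 4)

/-- (NLC) the local weights for a fundamental discriminant. -/
def T_NLC : Prop :=
  ∀ D p A B e : ℕ, 3 < D → D % 4 = 3 → Squarefree D → p.Prime → 1 ≤ A → 1 ≤ e →
    4 * A ∣ B ^ 2 + D →
    (N1 p A B (((B ^ 2 + D) / (4 * A) : ℕ) : ℤ) e : ℝ) * loc (qT (chi p D) 0) p e A =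
      loc (qT (chi p D) 1) p e A ∧
    (N2 p A B (((B ^ 2 + D) / (4 * A) : ℕ) : ℤ) e : ℝ) * loc (qT (chi p D) 0) p e A =
      loc (qT (chi p D) 2) p e A

/-- (RTS) the sum of the local weights over the roots. -/
def T_RTS : Prop :=
  ∀ D m₁ m₂ e A : ℕ, 3 < D → D % 4 = 3 → Squarefree D → Squarefree m₁ → Squarefree m₂ →
    1 ≤ e → 1 ≤ A →
    ∑ B ∈ (Finset.range (2 * A)).filter (fun B => 4 * A ∣ B ^ 2 + D),
      (Nw m₁ m₂ A B (((B ^ 2 + D) / (4 * A) : ℕ) : ℤ) e : ℝ) =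
      ∏ p ∈ (A * (m₁ * m₂)).primeFactors, loc (qT (chi p D) (tt p m₁ m₂)) p e A

/-- (EXP) the product over the primes, expanded. -/
def T_EXP : Prop :=
  ∀ D N m₁ m₂ n₁ n₂ e A Y : ℕ, D % 4 = 3 → Squarefree D → 1 ≤ N → Squarefree N →
    Squarefree m₁ → Squarefree m₂ → Nat.Coprime m₁ N → Nat.Coprime m₂ N → n₁ ∣ N → n₂ ∣ N →
    1 ≤ e → 1 ≤ A → A * (m₁ * m₂) ≤ Y →
    ∏ p ∈ (A * ((n₁ * m₁) * (n₂ * m₂))).primeFactors,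
        loc (qT (chi p D) (tt p (n₁ * m₁) (n₂ * m₂))) p e A =
      lN N (fun p => chi p D) n₁ n₂ e A * ∑ z ∈ idx N Y,
        xD z.1 D * (if z.2 ∣ D then 1 else 0) * LL z.1 z.2 m₁ m₂ e A

/-! ### The main part of the second moment -/

/-- (UCV) the main part for a pair of squarefree numbers. -/
def T_UCV : Prop :=
  ∀ D m₁ m₂ : ℕ, 3 < D → D % 4 = 3 → Squarefree D → Squarefree m₁ → Squarefree m₂ →
    HasSum (fun y : ℕ × ℕ => kM D (m₁ * m₂) y.1 y.2 *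
      ∏ p ∈ (y.2 * (m₁ * m₂)).primeFactors, loc (qT (chi p D) (tt p m₁ m₂)) p y.1 y.2)
      (Uc m₁ m₂ D)

/-- (UCD) the mollifier coefficients, split into small and large primes. -/
def T_UCD : Prop :=
  ∀ (P : Polynomial ℝ) (M : ℝ) (N D : ℕ) (F : ℕ → ℕ → ℝ), 1 ≤ N → Squarefree N → 1 ≤ M →
    ∑ m₁ ∈ SD M N, ∑ m₂ ∈ SD M N, CD P M N D m₁ * CD P M N D m₂ * F m₁ m₂ =
      ∑ n₁ ∈ N.divisors, ∑ n₂ ∈ N.divisors,
        anx N (fun p => chi p D) n₁ * anx N (fun p => chi p D) n₂ *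
          ∑ m₁ ∈ Finset.Icc 1 ⌊M⌋₊, ∑ m₂ ∈ Finset.Icc 1 ⌊M⌋₊,
            cm P M N m₁ * cm P M N m₂ * F (n₁ * m₁) (n₂ * m₂)

/-- (RPF) the functional on products of local elements. -/
def T_RPF : Prop :=
  ∀ (S : Finset ℕ) (q : ℕ → ℕ → ℕ → ℝ) (j : ℕ → ℕ) (u : ℝ), (∀ p ∈ S, p.Prime) → 0 < u →
    HasSum (fun y : ℕ × ℕ => kM u (∏ p ∈ S, p ^ j p) y.1 y.2 *
      ∏ p ∈ S, loc (q p) p y.1 y.2)
      (Ph (Real.log (Real.sqrt u)) (∏ p ∈ S, gel (q p) (j p) p))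

/-- (UCG) the sum over `e`, `A` for a pair `(r, t)`. -/
def T_UCG : Prop :=
  ∀ (N n₁ n₂ m₁ m₂ r t : ℕ) (x : ℕ → ℤ) (u : ℝ), 1 ≤ N → Squarefree N → n₁ ∣ N → n₂ ∣ N →
    Squarefree m₁ → Squarefree m₂ → Nat.Coprime m₁ N → Nat.Coprime m₂ N →
    Squarefree (r * t) → Nat.Coprime (r * t) N → 0 < u →
    HasSum (fun y : ℕ × ℕ => kM u (n₁ * n₂ * (m₁ * m₂)) y.1 y.2 *
      lN N x n₁ n₂ y.1 y.2 * LL r t m₁ m₂ y.1 y.2)
      (Ph (Real.log (Real.sqrt u))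
        ((∏ p ∈ N.primeFactors, gel (qT (x p) (tt p n₁ n₂)) (tt p n₁ n₂) p) * LG r t m₁ m₂))

/-- (SGN) the local elements at the small primes. -/
def T_SGN : Prop :=
  ∀ N : ℕ, 1 ≤ N → Squarefree N → ∃ C : ℝ, 0 < C ∧ ∀ x : ℕ → ℤ,
    (∀ p ∈ N.primeFactors, x p = 1 ∨ x p = 0 ∨ x p = -1) →
    mo 0 0 (sN N x) = rho N ∧ BD C C (sN N x) ∧
      ∀ n₁ n₂ e A, |anx N x n₁| ≤ C ∧ |lN N x n₁ n₂ e A| ≤ C

end Pool.Agent.H65.AD
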