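import Pool.Agent.H65.AD.TargetsA

/-!
# Almost all discriminants: targets, part 2 (the analysis of the main part)
-/

set_option autoImplicit false

open MeasureTheory Set Filter
open scoped Real

namespace Pool.Agent.H65.AD

open Pool.Agent.H31.CN Pool.Agent.H95.AD Pool.Agent.H50.CN

/-- (GLE) the local elements. -/
def T_GLE : Prop :=
  (∀ p : ℕ, p.Prime → gel (ec 0 0) 0 p = 1 ∧ gel (ec 0 1) 1 p = al p ∧
    gel (ec 0 2) 2 p = eo p + al p ^ 2) ∧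
  (∀ c j p : ℕ, c = 1 ∨ c = 2 → j ≤ 2 → p.Prime →
    BD ((if j = 0 then 1 else if j = 1 then 2 else 6) / (p : ℝ) ^ c) (2 * Real.log p)
      (gel (ec c j) j p))

/-- (CNB) the bilinear form is diagonal up to coprimality. -/
def T_CNB : Prop :=
  ∀ (c₁ c₂ : ℕ → ℝ) (n₀ : ℕ), (∀ m, ¬ Squarefree m → c₁ m = 0 ∧ c₂ m = 0) →
    (∀ m, n₀ < m → c₁ m = 0 ∧ c₂ m = 0) →
    ∑ m₁ ∈ Finset.Icc 1 n₀, ∑ m₂ ∈ Finset.Icc 1 n₀, (c₁ m₁ * c₂ m₂) •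
        ∏ p ∈ (m₁ * m₂).primeFactors, gel (ec 0 (tt p m₁ m₂)) (tt p m₁ m₂) p =
      ∑ d ∈ (Finset.Icc 1 n₀).filter (fun d => Squarefree d), (∏ p ∈ d.primeFactors, eo p) *
        ((∑ n ∈ (Finset.Icc 1 n₀).filter (fun n => Nat.Coprime n d),
          c₁ (d * n) • ∏ p ∈ n.primeFactors, al p) *
        (∑ n ∈ (Finset.Icc 1 n₀).filter (fun n => Nat.Coprime n d),
          c₂ (d * n) • ∏ p ∈ n.primeFactors, al p))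

/-- the coefficients of the mollifier with a divisor `s` of `w` split off -/
noncomputable def cw (P : Polynomial ℝ) (M : ℝ) (N w s m : ℕ) : ℝ :=
  if Nat.Coprime m w then cm P M N (s * m) else 0

/-- the mollifier sum -/
noncomputable def Bw (P : Polynomial ℝ) (M : ℝ) (N w s d : ℕ) : GR :=
  ∑ n ∈ (Finset.Icc 1 ⌊M⌋₊).filter (fun n => Nat.Coprime n d),
    cw P M N w s (d * n) • ∏ p ∈ n.primeFactors, al p

/-- (GID) the local elements at the prime divisors of `r t`, split off. -/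
def T_GID : Prop :=
  ∀ (P : Polynomial ℝ) (M : ℝ) (N r t : ℕ), 1 ≤ M → 1 ≤ N → Squarefree (r * t) →
    Nat.Coprime (r * t) N →
    GS P M N r t = ∑ n₁ ∈ (r * t).divisors, ∑ n₂ ∈ (r * t).divisors,
      (∏ p ∈ (r * t).primeFactors, gel (ec (cl r t p) (tt p n₁ n₂)) (tt p n₁ n₂) p) *
        QW P M N (r * t) n₁ n₂

/-- (QWD) the remaining sum, diagonalised. -/
def T_QWD : Prop :=
  ∀ (P : Polynomial ℝ) (M : ℝ) (N w n₁ n₂ : ℕ), 1 ≤ M → 1 ≤ N → Squarefree w →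
    n₁ ∣ w → n₂ ∣ w →
    QW P M N w n₁ n₂ = ∑ d ∈ (Finset.Icc 1 ⌊M⌋₊).filter (fun d => Squarefree d),
      (∏ p ∈ d.primeFactors, eo p) * (Bw P M N w n₁ d * Bw P M N w n₂ d)

/-- (BMO) the moments of the mollifier sums: bounds with the dependence on `N`. -/
def T_BMO : Prop :=
  ∀ P : Polynomial ℝ, Polynomial.X ^ 5 ∣ P → ∃ K : ℝ, 0 < K ∧
    ∀ N : ℕ, 1 ≤ N → 2 ∣ N → Squarefree N → ∃ C : ℝ, 0 < C ∧
      ∀ (M : ℝ) (w s d i j : ℕ), 2 ≤ M → Squarefree w → Nat.Coprime w N → s ∣ w →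
        Squarefree d → i + j ≤ 3 →
        |mo i j (Bw P M N w s d)| ≤ K * Hq N * Ef (d * w) * Real.log M ^ ((i : ℤ) + j - 2) +
          C * Ef (d * w) ^ 2 * Real.log M ^ ((i : ℤ) + j - 3)

/-- (EOM) the moments of the diagonal element. -/
def T_EOM : Prop :=
  ∃ C : ℝ, 0 < C ∧ ∀ d : ℕ, Squarefree d →
    (∀ i j, i + j ≤ 3 → |mo i j (∏ p ∈ d.primeFactors, eo p)| ≤ C / d) ∧
    BD (2 ^ d.primeFactors.card / (d : ℝ)) (2 * Real.log d) (∏ p ∈ d.primeFactors, eo p)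

/-- (QU2) the polynomial functional on a product, bounded. -/
def T_QU2 : Prop :=
  ∀ (a₁ a₀ b₂ b₁ b₀ K : ℝ), 0 < K → ∃ C : ℝ, 0 < C ∧
    ∀ (g Et B₁ B₂ : GR) (l lam d b V : ℝ), 1 / 2 ≤ l → |lam| ≤ K * l → 1 ≤ d → 0 ≤ b →
      (∀ i j, i + j ≤ 3 → |mo i j g| ≤ V) → (∀ i j, i + j ≤ 3 → |mo i j Et| ≤ K / d) →
      (∀ i j, i + j ≤ 3 → |mo i j B₁| ≤ b * l ^ ((i : ℤ) + j - 2)) →
      (∀ i j, i + j ≤ 3 → |mo i j B₂| ≤ b * l ^ ((i : ℤ) + j - 2)) →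
      |lin (fun v => PP a₁ a₀ b₂ b₁ b₀ (lam - v.1) (lam - v.2)) (g * (Et * (B₁ * B₂)))| ≤
        C * b ^ 2 / d * (|mo 0 0 g| * l ^ (-1 : ℤ) + V * l ^ (-2 : ℤ))

/-- (MBD) the moments of an element of bounded variation and bounded support. -/
def T_MBD : Prop :=
  ∀ (V S : ℝ) (g : GR) (i j : ℕ), 0 ≤ V → 0 ≤ S → BD V S g → i + j ≤ 3 →
    |mo i j g| ≤ V * (1 + S) ^ 3

/-- (QBD) the variation of the remaining sum. -/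
def T_QBD : Prop :=
  ∀ P : Polynomial ℝ, ∃ C : ℝ, 0 < C ∧ ∀ (M : ℝ) (N w n₁ n₂ : ℕ), 2 ≤ M → 1 ≤ N →
    Squarefree w → n₁ ∣ w → n₂ ∣ w →
    BD (C * (1 + Real.log M) ^ 6) (2 * Real.log M) (QW P M N w n₁ n₂)

/-- (PE2) the error functional is negligible. -/
def T_PE2 : Prop :=
  ∀ (P : Polynomial ℝ) (θ L₀ C₀ : ℝ) (f : ℝ → ℝ × ℝ → ℝ), 0 < θ → θ < 1 / 4 → 0 < C₀ →
    (∀ lam v, v.2 ≤ lam → |f lam v| ≤ C₀ * (1 + |lam| + |v.1| + |v.2|) ^ 2 *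
      Real.exp (-((lam - v.2) / 4))) →
    ∃ C X₀ : ℝ, 0 < C ∧ ∀ X lam : ℝ, X₀ ≤ X → |lam - 1 / 2 * Real.log X| ≤ L₀ →
      ∀ (g : GR) (V S : ℝ) (N w n₁ n₂ : ℕ), 0 ≤ V → 0 ≤ S →
        S ≤ (1 / 4 - θ) * Real.log X → BD V S g → 1 ≤ N → Squarefree w → n₁ ∣ w → n₂ ∣ w →
        |lin (f lam) (g * QW P (X ^ θ) N w n₁ n₂)| ≤ C * V / Real.log X

/-- (KL) the key lemma. -/
def T_KL : Prop :=
  ∀ (P : Polynomial ℝ) (θ L₀ : ℝ), Polynomial.X ^ 5 ∣ P → 0 < θ → θ < 1 / 4 →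
    ∃ K : ℝ, 0 < K ∧ ∀ N : ℕ, 1 ≤ N → 2 ∣ N → Squarefree N → ∃ C X₀ : ℝ, 0 < C ∧
      ∀ X lam : ℝ, X₀ ≤ X → |lam - 1 / 2 * Real.log X| ≤ L₀ →
      ∀ (g : GR) (V S : ℝ) (w n₁ n₂ : ℕ), 0 ≤ V → 0 ≤ S → S ≤ (1 / 4 - θ) * Real.log X →
        BD V S g → Squarefree w → Nat.Coprime w N → n₁ ∣ w → n₂ ∣ w →
        |Ph lam (g * QW P (X ^ θ) N w n₁ n₂)| ≤
          Ef w ^ 4 * (K * Hq N ^ 2 * |mo 0 0 g| + C * V * (1 + S) ^ 3 / Real.log X)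

/-- (ABS) products of local factors are small powers. -/
def T_ABS : Prop :=
  ∀ (κ : ℝ) (c k : ℕ) (B : ℝ), 0 < κ → 0 ≤ B → ∃ C : ℝ, 0 < C ∧ ∀ w : ℕ, Squarefree w →
    (c : ℝ) ^ w.primeFactors.card * Ef w ^ 4 * (1 + B + 2 * Real.log w) ^ k ≤
      C * (w : ℝ) ^ κ

/-- (GSB) the coefficient of the pair `(r, t)`. -/
def T_GSB : Prop :=
  ∀ (P : Polynomial ℝ) (θ κ L₀ A₀ : ℝ), Polynomial.X ^ 5 ∣ P → 0 < θ → θ < 1 / 4 → 0 < κ →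
    0 < A₀ → ∃ K : ℝ, 0 < K ∧ ∀ N : ℕ, 1 ≤ N → 2 ∣ N → Squarefree N →
      ∀ B : ℝ, 0 < B → ∃ C X₀ : ℝ, 0 < C ∧ ∀ X lam : ℝ, X₀ ≤ X →
        |lam - 1 / 2 * Real.log X| ≤ L₀ → ∀ (g : GR) (r t : ℕ), BD B B g →
        Squarefree (r * t) → Nat.Coprime (r * t) N → ((r * t : ℕ) : ℝ) ≤ Real.log X ^ A₀ →
        |Ph lam (g * GS P (X ^ θ) N r t)| ≤
          ((r * t : ℕ) : ℝ) ^ κ / ((r : ℝ) * (t : ℝ) ^ 2) *
            (K * Hq N ^ 2 * |mo 0 0 g| + C / Real.log X)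

/-- (HQB) the singular factor of a primorial. -/
def T_HQB : Prop :=
  ∃ C : ℝ, 0 < C ∧ ∀ R : ℕ, 2 ≤ R →
    rho (primorial R) * Hq (primorial R) ^ 2 ≤ C * (1 + Real.log R)

/-- (SMP) the part with small `r t`. -/
def T_SMP : Prop :=
  ∀ (P : Polynomial ℝ) (θ : ℝ), Polynomial.X ^ 5 ∣ P → 0 < θ → θ < 1 / 4 →
    ∃ K : ℝ, 0 < K ∧ ∀ R : ℕ, 2 ≤ R → ∀ η ε : ℝ, 0 < η → η < 1 → 0 < ε →
      ∃ X₀ : ℝ, ∀ X : ℝ, X₀ ≤ X →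
      ∑ D ∈ faE η X, (Sm P (X ^ θ) (primorial R) (Real.log X ^ (200 : ℝ)) D -
          rho (primorial R) * Ph (Real.log (Real.sqrt X))
            (GS P (X ^ θ) (primorial R) 1 1)) ^ 2 ≤
        (K * (1 + Real.log R) ^ 2 * (R : ℝ) ^ (-(1 / 2) : ℝ) + ε) * X

end Pool.Agent.H65.AD
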