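import Pool.Agent.H65.AD.TargetsB

/-!
# Almost all discriminants: targets, part 3 (the tail of the main part)
-/

set_option autoImplicit false

open MeasureTheory Set Filter
open scoped Real

namespace Pool.Agent.H65.AD

open Pool.Agent.H31.CN Pool.Agent.H95.AD Pool.Agent.H50.CN

/-- (SMR) removal of a smooth dependence on the summation variable. -/
def T_SMR : Prop :=
  ∀ (s : Finset ℕ) (a b B : ℝ) (Φ Ψ : ℝ → ℕ → ℝ), 0 < a → a ≤ b → 0 ≤ B →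
    (∀ D ∈ s, a ≤ (D : ℝ) ∧ (D : ℝ) ≤ b) →
    (∀ D ∈ s, ∀ u ∈ Icc a b, HasDerivAt (fun v => Φ v D) (Ψ u D) u) →
    (∀ D ∈ s, ContinuousOn (fun u => Ψ u D) (Icc a b)) →
    (∀ u ∈ Icc a b, ∑ D ∈ s, Ψ u D ^ 2 ≤ B) →
    ∑ D ∈ s, Φ D D ^ 2 ≤ 2 * ∑ D ∈ s, Φ b D ^ 2 + 2 * (b - a) ^ 2 * B

/-- (KMD) the kernel of the main part: bounds and derivative. -/
def T_KMD : Prop :=
  ∀ η : ℝ, 0 < η → ∃ C : ℝ, 0 < C ∧ ∀ (X u : ℝ) (n e A : ℕ), 3 ≤ X → η * X ≤ u → u ≤ X →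
    1 ≤ n → 1 ≤ e → 1 ≤ A → (A : ℝ) ≤ X →
    |kM u n e A| ≤ C * Real.log X / ((e : ℝ) * A) ∧
    HasDerivAt (fun v => kM v n e A) (deriv (fun v => kM v n e A) u) u ∧
    |deriv (fun v => kM v n e A) u| ≤ C * Real.log X / X / ((e : ℝ) * A) ∧
    ContinuousOn (deriv (fun v => kM v n e A)) (Ioi 0)

/-- (LLB) the local functions of a pair `(r, t)`, summed. -/
def T_LLB : Prop :=
  ∀ κ : ℝ, 0 < κ → ∃ C : ℝ, 0 < C ∧ ∀ (X : ℝ) (r t : ℕ), 3 ≤ X → Squarefree (r * t) →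
    ∑ m₁ ∈ (Finset.Icc 1 ⌊X⌋₊).filter (fun m => Squarefree m),
      ∑ m₂ ∈ (Finset.Icc 1 ⌊X⌋₊).filter (fun m => Squarefree m),
      ∑ y ∈ (Finset.Icc 1 ⌊X⌋₊) ×ˢ (Finset.Icc 1 ⌊X⌋₊),
        |LL r t m₁ m₂ y.1 y.2| / ((y.1 : ℝ) * y.2) ≤
      C * Real.log X ^ (30 : ℕ) * (((r * t : ℕ) : ℝ) ^ κ / ((r : ℝ) * (t : ℝ) ^ 2))

/-- (GCB) the truncated coefficient of the pair `(r, t)`. -/
def T_GCB : Prop :=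
  ∀ (P : Polynomial ℝ) (N : ℕ) (κ : ℝ), 1 ≤ N → Squarefree N → 0 < κ → ∃ C : ℝ, 0 < C ∧
    ∀ (X M δ K : ℝ) (x : ℕ → ℤ) (κ' : ℕ → ℕ → ℕ → ℝ) (r t : ℕ), 3 ≤ X → 1 ≤ M → M ≤ X → 0 ≤ K →
      (∀ p ∈ N.primeFactors, x p = 1 ∨ x p = 0 ∨ x p = -1) → Squarefree (r * t) →
      (∀ (n : ℕ) (y : ℕ × ℕ), y ∈ Bx X δ n → |κ' n y.1 y.2| ≤ K / ((y.1 : ℝ) * y.2)) →
      |gC P M N X δ x κ' r t| ≤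
        C * K * Real.log X ^ (30 : ℕ) * (((r * t : ℕ) : ℝ) ^ κ / ((r : ℝ) * (t : ℝ) ^ 2))

/-- (TLB) the tail of the main part. -/
def T_TLB : Prop :=
  ∀ (P : Polynomial ℝ) (N : ℕ) (θ δ η : ℝ), 1 ≤ N → 2 ∣ N → Squarefree N → 0 < θ → 0 < δ →
    4 * θ + δ < 1 / 2 → 0 < η → ∃ X₀ : ℝ, ∀ X : ℝ, X₀ ≤ X →
    ∑ D ∈ faE η X, (TF P (X ^ θ) N X δ ⌊(N : ℝ) ^ 2 * X ^ (1 / 2 + 4 * θ + δ)⌋₊
      (Real.log X ^ (200 : ℝ)) (fun p => chi p D) (kM D) D) ^ 2 ≤ X / Real.log X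

/-- (KTL) the terms outside the range. -/
def T_KTL : Prop :=
  ∀ (N : ℕ) (θ δ η : ℝ), 1 ≤ N → 0 < θ → 0 < δ → 2 * θ + δ < 1 / 2 → 0 < η →
    ∃ X₀ : ℝ, ∀ X : ℝ, X₀ ≤ X → ∀ (u : ℝ) (n : ℕ), η * X ≤ u → u ≤ X → 1 ≤ n →
      (n : ℝ) ≤ (N : ℝ) ^ 2 * X ^ (2 * θ) → ∀ f : ℕ → ℕ → ℝ,
      (∀ e A, 1 ≤ e → 1 ≤ A → |f e A| ≤ X ^ (10 : ℝ) * ((e : ℝ) * A) ^ 3) → ∀ S : ℝ,
      HasSum (fun y : ℕ × ℕ => kM u n y.1 y.2 * f y.1 y.2) S →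
      |S - ∑ y ∈ Bx X δ n, kM u n y.1 y.2 * f y.1 y.2| ≤ X ^ (-10 : ℝ)

/-- (DCM) the decomposition of the main part. -/
def T_DCM : Prop :=
  ∀ (P : Polynomial ℝ) (N : ℕ) (θ δ η : ℝ), 1 ≤ N → 2 ∣ N → Squarefree N → 0 < θ → 0 < δ →
    4 * θ + δ < 1 / 2 → 0 < η → ∃ X₀ : ℝ, ∀ X : ℝ, X₀ ≤ X → ∀ D ∈ faE η X,
    |MD P (X ^ θ) N D - Sm P (X ^ θ) N (Real.log X ^ (200 : ℝ)) D -
      TF P (X ^ θ) N X δ ⌊(N : ℝ) ^ 2 * X ^ (1 / 2 + 4 * θ + δ)⌋₊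
      (Real.log X ^ (200 : ℝ)) (fun p => chi p D) (kM D) D| ≤ X ^ (-1 : ℝ)

/-- (MNM) the main part is nearly constant. -/
def T_MNM : Prop :=
  ∀ (P : Polynomial ℝ) (θ : ℝ), Polynomial.X ^ 5 ∣ P → 0 < θ → θ < 1 / 8 →
    ∀ ε : ℝ, 0 < ε → ∃ R₀ : ℕ, ∀ R : ℕ, R₀ ≤ R → ∀ η : ℝ, 0 < η → η < 1 →
      ∃ X₀ : ℝ, ∀ X : ℝ, X₀ ≤ X →
      ∑ D ∈ faE η X, (MD P (X ^ θ) (primorial R) D -
          rho (primorial R) * Ph (Real.log (Real.sqrt X))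
            (GS P (X ^ θ) (primorial R) 1 1)) ^ 2 ≤ ε * X

end Pool.Agent.H65.AD
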