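import Pool.Agent.H65.AD.TargetsC
import Pool.Agent.H31.CN.T6

/-!
# Almost all discriminants: targets, part 4 (the first moment, the assembly)
-/

set_option autoImplicit false

open MeasureTheory Set Filter NumberField
open scoped Real nonZeroDivisors

namespace Pool.Agent.H65.AD

open Pool.Agent.H31.CN Pool.Agent.H95.AD Pool.Agent.H50.CN

/-! ### The first moment -/

/-- (BMU) the smoothed sum of the Möbius function with coprimality. -/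
def T_BMU : Prop :=
  ∀ k : ℕ, 2 ≤ k → ∃ C : ℝ, 0 < C ∧ ∀ (q : ℕ) (y : ℝ), 1 ≤ q → 1 ≤ y →
    |∑ n ∈ (Finset.Icc 1 ⌊y⌋₊).filter (fun n => Nat.Coprime n q),
        mr n / n * Real.log (y / n) ^ k -
      (∏ p ∈ q.primeFactors, (1 - 1 / (p : ℝ))⁻¹) * k * Real.log y ^ (k - 1)| ≤
      C * Ef q * (1 + Real.log y) ^ (k - 2)

/-- the coefficients of the first moment -/
noncomputable def A0 (P : Polynomial ℝ) (M : ℝ) (N r : ℕ) : ℝ :=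
  ∑ m ∈ (Finset.Icc 1 ⌊M⌋₊).filter (fun m => r ∣ m), cm P M N m / m

/-- the coefficients of the first moment, with a logarithm -/
noncomputable def A1 (P : Polynomial ℝ) (M : ℝ) (N r : ℕ) : ℝ :=
  ∑ m ∈ (Finset.Icc 1 ⌊M⌋₊).filter (fun m => r ∣ m), cm P M N m / m * Real.log m

/-- (ZCF) bounds for the coefficients of the first moment. -/
def T_ZCF : Prop :=
  ∀ P : Polynomial ℝ, Polynomial.X ^ 5 ∣ P → ∃ K : ℝ, 0 < K ∧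
    ∀ N : ℕ, 1 ≤ N → Squarefree N → ∃ C : ℝ, 0 < C ∧
      ∀ (M : ℝ) (r : ℕ), 2 ≤ M → Squarefree r → Nat.Coprime r N →
        |A0 P M N r| * Real.log M + |A1 P M N r| ≤
          Ef r / r * (K * (∏ p ∈ N.primeFactors, (1 - 1 / (p : ℝ))⁻¹) + C / Real.log M)

/-- (ZEX) the first moment in terms of the quadratic characters. -/
def T_ZEX : Prop :=
  ∀ (P : Polynomial ℝ) (N : ℕ) (θ η : ℝ), 1 ≤ N → 2 ∣ N → Squarefree N → 0 < θ → θ < 1 / 4 →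
    0 < η → ∃ C X₀ : ℝ, 0 < C ∧ ∀ X : ℝ, X₀ ≤ X → ∀ D ∈ faE η X,
      |ZD P (X ^ θ) N D - (∏ p ∈ N.primeFactors, (1 - 1 / (p : ℝ))) *
        ((Real.log (Real.sqrt D) + c0) *
          (∑ r ∈ (Finset.Icc 1 ⌊X ^ θ⌋₊).filter (fun r => Squarefree r ∧ Nat.Coprime r N),
            xD r D * A0 P (X ^ θ) N r) -
          ∑ r ∈ (Finset.Icc 1 ⌊X ^ θ⌋₊).filter (fun r => Squarefree r ∧ Nat.Coprime r N),
            xD r D * A1 P (X ^ θ) N r)| ≤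
        C * |∑ r ∈ (Finset.Icc 1 ⌊X ^ θ⌋₊).filter (fun r => Squarefree r ∧ Nat.Coprime r N),
            xD r D * A0 P (X ^ θ) N r| + X ^ (-1 : ℝ)

/-- (ZVR) the variance of the first moment. -/
def T_ZVR : Prop :=
  ∀ (P : Polynomial ℝ) (θ : ℝ), Polynomial.X ^ 5 ∣ P → 0 < θ → θ < 1 / 4 →
    ∀ ε : ℝ, 0 < ε → ∃ R₀ : ℕ, ∀ R : ℕ, R₀ ≤ R → ∀ η : ℝ, 0 < η → η < 1 →
      ∃ X₀ : ℝ, ∀ X : ℝ, X₀ ≤ X →
      ∑ D ∈ faE η X, (ZD P (X ^ θ) (primorial R) D -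
        (P.eval 1 + 1 / (2 * θ) * P.derivative.eval 1)) ^ 2 ≤ ε * X

/-! ### The second moment -/

/-- (UFN) the oscillating part of the second moment. -/
def T_UFN8 : Prop :=
  ∀ (P : Polynomial ℝ) (N : ℕ) (θ η : ℝ), Polynomial.X ^ 5 ∣ P → 1 ≤ N → 2 ∣ N →
    Squarefree N → 0 < θ → θ < 1 / 8 → 0 < η → ∃ δ X₀ : ℝ, 0 < δ ∧ ∀ X : ℝ, X₀ ≤ X →
    ∑ D ∈ faE η X, (∑ m₁ ∈ SD (X ^ θ) N, ∑ m₂ ∈ SD (X ^ θ) N,
      CD P (X ^ θ) N D m₁ * CD P (X ^ θ) N D m₂ * (Uf m₁ m₂ D - Uc m₁ m₂ D)) ^ 2 ≤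
      X ^ (1 - δ)

/-- the constant value of the second moment -/
noncomputable def Gam (P : Polynomial ℝ) (M : ℝ) (N : ℕ) (X : ℝ) : ℝ :=
  2 * (rho N * Ph (Real.log (Real.sqrt X)) (GS P M N 1 1))

/-- (TVR) the variance of the second moment. -/
def T_TVR : Prop :=
  ∀ (P : Polynomial ℝ) (θ : ℝ), Polynomial.X ^ 5 ∣ P → 0 < θ → θ < 1 / 8 →
    ∀ ε : ℝ, 0 < ε → ∃ R₀ : ℕ, ∀ R : ℕ, R₀ ≤ R → ∀ η : ℝ, 0 < η → η < 1 →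
      ∃ X₀ : ℝ, ∀ X : ℝ, X₀ ≤ X →
      ∑ D ∈ faE η X, (TD P (X ^ θ) (primorial R) D -
        Gam P (X ^ θ) (primorial R) X) ^ 2 ≤ ε * X

/-- (TPS) the second moment is nonnegative. -/
def T_TPS : Prop :=
  ∀ (P : Polynomial ℝ) (M : ℝ) (N Δ : ℕ), 0 < Δ → 0 ≤ TD P M N Δ

/-- (BUM) a smooth weight. -/
def T_BUM : Prop :=
  ∃ G : ℝ → ℝ, ContDiff ℝ (⊤ : ℕ∞) G ∧ (∀ u, u ∉ Icc (1 / 2 : ℝ) 1 → G u = 0) ∧
    (∀ u, 0 ≤ G u ∧ G u ≤ 1) ∧ 0 < ∫ u in Ioi (0 : ℝ), G u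

/-- (FGS) the smooth sum over the fundamental discriminants. -/
def T_FGS : Prop :=
  ∀ (G : ℝ → ℝ) (η : ℝ), 0 < η → ContDiff ℝ (⊤ : ℕ∞) G → (∀ u, u ∉ Icc η 1 → G u = 0) →
    ∀ ε : ℝ, 0 < ε → ∃ X₀ : ℝ, ∀ X : ℝ, X₀ ≤ X →
      |∑ D ∈ fam X, G (D / X) - X * (2 / π ^ 2) * ∫ u in Ioi (0 : ℝ), G u| ≤ ε * X

/-- (GAM) the constant value is at most the main term. -/
def T_GAM : Prop :=
  ∀ (P : Polynomial ℝ) (θ : ℝ), Polynomial.X ^ 5 ∣ P → 0 < θ → θ < 1 / 8 →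
    ∀ ε : ℝ, 0 < ε → ∃ R₀ : ℕ, ∀ R : ℕ, R₀ ≤ R → ∃ X₀ : ℝ, ∀ X : ℝ, X₀ ≤ X →
      Gam P (X ^ θ) (primorial R) X ≤ Mt P (1 / (2 * θ)) + ε

/-- (CHB) Chebyshev's inequality. -/
def T_CHB : Prop :=
  ∀ (s : Finset ℕ) (f : ℕ → ℝ) (c ε B : ℝ), 0 < ε → ∑ D ∈ s, (f D - c) ^ 2 ≤ B →
    ((s.filter (fun D => ε ≤ |f D - c|)).card : ℝ) ≤ B / ε ^ 2

/-- (OP8) the optimal polynomial for the length `X ^ (1 / 8)`, approximately. -/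
def T_OP8 : Prop :=
  ∀ ε : ℝ, 0 < ε → ∃ (P : Polynomial ℝ) (θ : ℝ), Polynomial.X ^ 5 ∣ P ∧ 0 < θ ∧ θ < 1 / 8 ∧
    0 < Mt P (1 / (2 * θ)) ∧ 0 < P.eval 1 + 1 / (2 * θ) * P.derivative.eval 1 ∧
    (61 / 125 - ε) * Mt P (1 / (2 * θ)) ≤ (P.eval 1 + 1 / (2 * θ) * P.derivative.eval 1) ^ 2

open Classical in
/-- (AAP) the theorem for the class group characters. -/
def T_AAP : Prop :=
  ∀ ε : ℝ, 0 < ε → ∃ X₀ : ℝ, ∀ X : ℝ, X₀ ≤ X →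
    ∀ (K : ℕ → Type) [∀ D, Field (K D)] [∀ D, NumberField (K D)],
      (∀ D ∈ fam X, Module.finrank ℚ (K D) = 2 ∧ discr (K D) = -(D : ℤ)) →
      (((fam X).filter (fun D => prp (K D) < 61 / 125 - ε)).card : ℝ) ≤ ε * (fam X).card

open Classical in
/-- (RCM) few class group characters are real, for almost all discriminants. -/
def T_RCM : Prop :=
  ∀ ε : ℝ, 0 < ε → ∃ X₀ : ℝ, ∀ X : ℝ, X₀ ≤ X →
    ∀ (K : ℕ → Type) [∀ D, Field (K D)] [∀ D, NumberField (K D)],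
      (∀ D ∈ fam X, Module.finrank ℚ (K D) = 2 ∧ discr (K D) = -(D : ℤ)) →
      (((fam X).filter (fun D => ε < (rc (K D) : ℝ) / classNumber (K D))).card : ℝ) ≤
        ε * (fam X).card

open Classical in
/-- (AAR) the theorem for the Artin `L`-functions. -/
def T_AAR : Prop :=
  ∀ ε : ℝ, 0 < ε → ∃ X₀ : ℝ, ∀ X : ℝ, X₀ ≤ X →
    ∀ (K L : ℕ → Type) [∀ D, Field (K D)] [∀ D, NumberField (K D)] [∀ D, Field (L D)]
      [∀ D, NumberField (L D)] [∀ D, Algebra (K D) (L D)] [∀ D, IsGalois ℚ (L D)],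
      (∀ D ∈ fam X, Module.finrank ℚ (K D) = 2 ∧ discr (K D) = -(D : ℤ) ∧
        Pool.Agent.H37.CA.IsRCF (K D) (L D) ⊤) → ∀ F : ∀ D, Pool.Agent.H37.CA.Frb (L D),
      (∀ D ∈ fam X, (Pool.Agent.H37.CA.Irr (L D ≃ₐ[ℚ] L D)).Finite) ∧
      (((fam X).filter (fun D => prI (F D) < 61 / 125 - ε)).card : ℝ) ≤ ε * (fam X).card

end Pool.Agent.H65.AD
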